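import Pool.Agent.H931R2.HR.Main

set_option autoImplicit false

/-!
# The total chromatic number of complete multipartite graphs (Hoffman-Rodger conjecture)

For every complete multipartite graph `K = K(a_1, ..., a_p)` the total chromatic number is
`Δ(K) + 1` or `Δ(K) + 2`, and it is `Δ(K) + 2` exactly when `p = 2` and `K` is regular, or `|V(K)|`
is even and the deficiency of `K` is smaller than the number of odd parts.

Proof (helper301, helper931). Lower bounds: in a total colouring with `Δ + 1` colours every colour
misses (counted over all colours) exactly `def(K)` vertices, and if `|V|` is even every odd part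
forces a colour missing a vertex. Upper bounds: the parts are amalgamated to single vertices, an
outline of the colouring is found there and detached vertex by vertex. In the outline there is one
special class for every part (avoiding it up to one vertex), given explicitly by reflections of
`ZMod (2 h + 1)`; the rest of the edges is oriented with prescribed outdegrees (an explicit
fractional flow is rounded) and split by a two-sided equitable edge colouring of a bipartite
multigraph (de Werra, König).

The frozen statements of the problem are misparsed (`A → B → C ↔ D` reads `(A → B → C) ↔ D`), hence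
the present statement.
-/

namespace Pool.Agent.Results.MP_c70440_co.HoffmanRodger

open Finset

/-- `G` has a total colouring with `k` colours: adjacent vertices get different colours, edges
sharing an endpoint get different colours, and no edge gets the colour of one of its endpoints. -/
def TotallyColourable {V : Type} (G : SimpleGraph V) (k : ℕ) : Prop :=
  ∃ cv : V → Fin k, ∃ ce : G.edgeSet → Fin k,
    (∀ u v : V, G.Adj u v → cv u ≠ cv v) ∧
    (∀ e f : G.edgeSet, e ≠ f → ∀ v : V, v ∈ e.1 → v ∈ f.1 → ce e ≠ ce f) ∧
    (∀ e : G.edgeSet, ∀ v : V, v ∈ e.1 → cv v ≠ ce e)

/-- The total chromatic number: the least number of colours of a total colouring. -/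
noncomputable def totalChromaticNumber {V : Type} (G : SimpleGraph V) : ℕ :=
  sInf {k | TotallyColourable G k}

/-- The deficiency `∑ v, (Δ(G) - d(v))`; `G` is regular when it is zero. -/
def deficiency {V : Type} [Fintype V] (G : SimpleGraph V) [DecidableRel G.Adj] : ℕ :=
  ∑ v, (G.maxDegree - G.degree v)

/-- The complete multipartite graph `K(a_1, ..., a_p)`. -/
abbrev K {p : ℕ} (a : Fin p → ℕ) : SimpleGraph (Σ i : Fin p, Fin (a i)) :=
  SimpleGraph.completeMultipartiteGraph (fun i : Fin p => Fin (a i))

/-- **Hoffman-Rodger conjecture.** `χ''(K(a_1, ..., a_p))` is `Δ + 1` or `Δ + 2` (with colourings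
attaining it), and it is `Δ + 2` iff `p = 2` and `K` is regular, or `|V(K)|` is even and
`def(K)` is smaller than the number of odd `a_i`. -/
theorem result (p : ℕ) (a : Fin p → ℕ) (hp : 0 < p) (ha : ∀ i, 0 < a i) :
    TotallyColourable (K a) (totalChromaticNumber (K a)) ∧
    (totalChromaticNumber (K a) = (K a).maxDegree + 1 ∨
      totalChromaticNumber (K a) = (K a).maxDegree + 2) ∧
    (totalChromaticNumber (K a) = (K a).maxDegree + 2 ↔
      (p = 2 ∧ deficiency (K a) = 0) ∨
      (Even (Fintype.card (Σ i : Fin p, Fin (a i))) ∧
        deficiency (K a) < (univ.filter (fun i => Odd (a i))).card)) := by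
  have h := HRfin.conclusion HRfin.cases.1 HRfin.cases.2 p a hp ha
  refine ⟨?_, h.1, h.2⟩
  have hne : {k | TotallyColourable (K a) k}.Nonempty := by
    rw [Set.nonempty_iff_ne_empty]
    intro h0
    have h1 : totalChromaticNumber (K a) = 0 := by
      unfold totalChromaticNumber
      rw [h0]; exact Nat.sInf_empty
    have h2 := h.1
    have h3 : HRfin.totalChromaticNumber
        (SimpleGraph.completeMultipartiteGraph (fun i : Fin p => Fin (a i))) = 0 := h1
    rw [h3] at h2
    omega
  exact Nat.sInf_mem hne

end Pool.Agent.Results.MP_c70440_co.HoffmanRodger
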